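import Pool.Agent.N470.FZ.Six
import Pool.Agent.N175.OC.Simple

set_option autoImplicit false
set_option linter.unusedSectionVars false

/-!
# Oriented covers with multiplicities one and two: the six circulations

`a` and `f` are the values of a flow with values at most one and of a flow with values at most two,
not both zero; `2 q - (a + f)` is the value of an orientation of the even set where `a + f` is odd.
-/

namespace Pool.Agent.U653.OC

open Finset

/-- number of entries equal to `c` -/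
def cnt (g : Fin 6 → ℤ) (c : ℤ) : ℕ := ∑ i, (if g i = c then 1 else 0)

/-- the six values, first sign -/
def six1 (a f q x y : ℤ) : Fin 6 → ℤ := ![a, 2 * q - a - f, x, f - q - x, y, - q - y]

/-- the six values, second sign -/
def six2 (a f q x y : ℤ) : Fin 6 → ℤ := ![a, a + f - 2 * q, x, q - a - x, y, q - a - f - y]

theorem loc1 (a f q x y : ℤ) (ha : a = 0 ∨ a = 1 ∨ a = -1)
    (hf : f = 0 ∨ f = 1 ∨ f = -1 ∨ f = 2 ∨ f = -2) (hne : a ≠ 0 ∨ f ≠ 0)
    (hq : |2 * q - (a + f)| ≤ 1) (hx : |2 * x - (f - q)| ≤ 1) (hy : |2 * y - (- q)| ≤ 1) :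
    (∀ i, six1 a f q x y i = 0 ∨ six1 a f q x y i = 1 ∨ six1 a f q x y i = -1) ∧
    cnt (six1 a f q x y) 1 = cnt (six1 a f q x y) (-1) ∧
    cnt (six1 a f q x y) 1 =
      if (a ≠ 0 ∧ (f = 2 ∨ f = -2)) ∨ (f = 0 ∧ 2 * q - a = a) then 2 else 1 := by
  rw [abs_le] at hq hx hy
  rcases ha with rfl | rfl | rfl <;> rcases hf with rfl | rfl | rfl | rfl | rfl <;>
    (have hq1 : -2 ≤ q := by omega) <;> (have hq2 : q ≤ 2 := by omega) <;>
    (have hx1 : -2 ≤ x := by omega) <;> (have hx2 : x ≤ 2 := by omega) <;>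
    (have hy1 : -2 ≤ y := by omega) <;> (have hy2 : y ≤ 2 := by omega) <;>
    interval_cases q <;> first | omega | (interval_cases x <;> first | omega | (interval_cases y <;> first | omega | decide))

theorem loc2 (a f q x y : ℤ) (ha : a = 0 ∨ a = 1 ∨ a = -1)
    (hf : f = 0 ∨ f = 1 ∨ f = -1 ∨ f = 2 ∨ f = -2) (hne : a ≠ 0 ∨ f ≠ 0)
    (hq : |2 * q - (a + f)| ≤ 1) (hx : |2 * x - (q - a)| ≤ 1) (hy : |2 * y - (q - a - f)| ≤ 1) :
    (∀ i, six2 a f q x y i = 0 ∨ six2 a f q x y i = 1 ∨ six2 a f q x y i = -1) ∧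
    cnt (six2 a f q x y) 1 = cnt (six2 a f q x y) (-1) ∧
    cnt (six2 a f q x y) 1 =
      if (a ≠ 0 ∧ (f = 2 ∨ f = -2)) ∨ (f = 0 ∧ 2 * q - a ≠ a) then 2 else 1 := by
  rw [abs_le] at hq hx hy
  rcases ha with rfl | rfl | rfl <;> rcases hf with rfl | rfl | rfl | rfl | rfl <;>
    (have hq1 : -2 ≤ q := by omega) <;> (have hq2 : q ≤ 2 := by omega) <;>
    (have hx1 : -2 ≤ x := by omega) <;> (have hx2 : x ≤ 2 := by omega) <;>
    (have hy1 : -2 ≤ y := by omega) <;> (have hy2 : y ≤ 2 := by omega) <;>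
    interval_cases q <;> first | omega | (interval_cases x <;> first | omega | (interval_cases y <;> first | omega | decide))

end Pool.Agent.U653.OC
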