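import Pool.Agent.U653.OC.Loc

set_option autoImplicit false
set_option linter.unusedSectionVars false

/-!
# Oriented covers with multiplicities one and two
-/

namespace Pool.Agent.U653.OC

open Finset Pool.Agent.H239R2.Cover Pool.Agent.N470.FZ
open Pool.Agent.H160R2.HF (OrGraph)
open Pool.Agent.N175.OC (CovI)

variable {V E : Type} [Fintype V] [DecidableEq V] [Fintype E] [DecidableEq E]

theorem wt_split (w : E → ℝ) (A B : Finset E) : wt w (A \ B) + wt w (A ∩ B) = wt w A := by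
  unfold wt
  rw [← sum_add_distrib]
  refine sum_congr rfl fun e _ => ?_
  by_cases h : e ∈ A <;> by_cases h' : e ∈ B <;> simp [h, h']

theorem wt_neg (w : E → ℝ) (A : Finset E) : wt (fun e => - w e) A = - wt w A := by
  unfold wt
  rw [← sum_neg_distrib]
  refine sum_congr rfl fun e _ => ?_
  split_ifs <;> simp

/-- six times the averaged excess -/
noncomputable def psi (w : E → ℝ) (A B : Finset E) : ℝ := 3 * wt w (A \ B) + 2 * wt w (A ∩ B)

/-- a 2-flow and a 3-flow which cover all edges with small excess -/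
theorem exists_pair (src dst : E → V) (hb : ∀ X : Finset V, (ecut src dst X).card ≠ 1)
    (w : E → ℝ) :
    ∃ A B, Two src dst A ∧ Thr src dst B ∧ (∀ e, e ∈ A ∨ e ∈ B) ∧
      5 * psi w A B ≤ 7 * ∑ e, w e := by
  classical
  obtain ⟨g, hg, hg'⟩ := six src dst hb
  have hne : (univ.filter fun p : Finset E × Finset E =>
      Two src dst p.1 ∧ Thr src dst p.2 ∧ ∀ e, e ∈ p.1 ∨ e ∈ p.2).Nonempty := by
    refine ⟨(univ.filter fun e => Odd (g e), univ.filter fun e => ¬ (3 : ℤ) ∣ g e), ?_⟩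
    rw [mem_filter]
    refine ⟨mem_univ _, two_of hg, thr_of hg, fun e => ?_⟩
    simp only [mem_filter, mem_univ, true_and]
    by_contra hcon
    push Not at hcon
    obtain ⟨h1, h2⟩ := hcon
    rw [Int.not_odd_iff_even] at h1
    obtain ⟨k, hk⟩ := h1
    obtain ⟨h3, h4⟩ := hg' e
    have h5 := abs_le.1 h4
    have h6 : g e = 0 := by omega
    rw [h6] at h3
    simp at h3
  obtain ⟨⟨A, B⟩, hmem, hmin⟩ := exists_min_image _ (fun p : Finset E × Finset E => psi w p.1 p.2) hne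
  rw [mem_filter] at hmem
  obtain ⟨-, hA, hB, hAB⟩ := hmem
  simp only at hA hB hAB
  refine ⟨A, B, hA, hB, hAB, ?_⟩
  have hx1 : 3 * psi w A B ≤ 7 * wt w A := by
    obtain ⟨B', h1, h2, h3⟩ := shiftT hA hB hAB (fun e => - w e)
    have h4 := hmin (A, B') (by rw [mem_filter]; exact ⟨mem_univ _, hA, h1, h2⟩)
    rw [wt_neg, wt_neg] at h3
    simp only at h4
    have h5 := wt_split w A B'
    have h6 : psi w A B' = 3 * wt w (A \ B') + 2 * wt w (A ∩ B') := rfl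
    linarith
  have hc : ∀ A', (∀ e, e ∈ A' ∨ e ∈ B) → wt w (A' \ B) = ∑ e, w e - wt w B := by
    intro A' h
    unfold wt
    rw [← sum_sub_distrib]
    refine sum_congr rfl fun e _ => ?_
    by_cases h' : e ∈ B
    · simp [h']
    · have := (h e).resolve_right h'
      simp [h', this]
  have hx2 : psi w A B ≤ 3 * (∑ e, w e - wt w B) + wt w B := by
    obtain ⟨A', h1, h2, h3⟩ := shiftS hA hB hAB w
    have h4 := hmin (A', B) (by rw [mem_filter]; exact ⟨mem_univ _, h1, hB, h2⟩)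
    simp only at h4
    have h6 : psi w A' B = 3 * wt w (A' \ B) + 2 * wt w (A' ∩ B) := rfl
    rw [hc A' h2] at h6
    linarith
  have h7 := hc A hAB
  have h8 := wt_split w A B
  have h9 : psi w A B = 3 * wt w (A \ B) + 2 * wt w (A ∩ B) := rfl
  linarith

theorem isFlow_of {K : OrGraph V E} {f : E → ℤ} (h : Bal K.t K.h f) : K.IsFlow f := by
  intro v
  have h1 := h v
  unfold ic at h1
  rw [Finset.sum_filter, Finset.sum_filter, ← sub_eq_zero, ← Finset.sum_sub_distrib]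
  refine Eq.trans (sum_congr rfl fun e _ => ?_) h1
  by_cases h2 : K.t e = v <;> by_cases h3 : K.h e = v <;> simp [h2, h3]

/-- **Oriented covers with multiplicities one and two.** -/
theorem main (K : OrGraph V E) (hb : ∀ X : Finset V, (ecut K.t K.h X).card ≠ 1)
    (w : E → ℝ) :
    ∃ m : E → ℕ, (∀ e, m e = 1 ∨ m e = 2) ∧ CovI K (Fin 6) m ∧
      30 * ∑ e ∈ univ.filter (fun e => m e = 2), w e ≤ 7 * ∑ e, w e := by
  classical
  obtain ⟨A, B, hA, hB, hAB, hpsi⟩ := exists_pair K.t K.h hb w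
  obtain ⟨α, hα, hα'⟩ := hA
  obtain ⟨β, hβ, hβ'⟩ := hB
  obtain ⟨P, hP, hP1⟩ := halve K.t K.h β hβ
  -- the three flows
  let F : Fin 3 → E → ℤ := ![fun e => β e, fun e => 3 * P e - 2 * β e, fun e => β e - 3 * P e]
  have hF : ∀ i, Bal K.t K.h (F i) := by
    intro i
    fin_cases i
    · exact hβ
    · exact (hP.smul 3).sub (hβ.smul 2)
    · exact hβ.sub (hP.smul 3)
  have hPv : ∀ e, (e ∉ B ∧ β e = 0 ∧ P e = 0) ∨ (e ∈ B ∧
      ((β e = 1 ∧ P e = 0) ∨ (β e = 1 ∧ P e = 1) ∨ (β e = -1 ∧ P e = 0) ∨ (β e = -1 ∧ P e = -1) ∨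
        (β e = 2 ∧ P e = 1) ∨ (β e = -2 ∧ P e = -1))) := by
    intro e
    have h3 := abs_le.1 (hP1 e)
    rcases hβ' e with ⟨h1, h2⟩ | ⟨h1, h2⟩
    · right
      exact ⟨h1, by omega⟩
    · left
      exact ⟨h1, h2, by omega⟩
  have hFv : ∀ i e, (e ∉ B ∧ F i e = 0) ∨
      (e ∈ B ∧ (F i e = 1 ∨ F i e = -1 ∨ F i e = 2 ∨ F i e = -2)) := by
    intro i e
    rcases hPv e with ⟨h1, h2, h3⟩ | ⟨h1, h2⟩
    · left
      refine ⟨h1, ?_⟩
      fin_cases i <;> simp [F, h2, h3]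
    · right
      refine ⟨h1, ?_⟩
      rcases h2 with ⟨c, d⟩ | ⟨c, d⟩ | ⟨c, d⟩ | ⟨c, d⟩ | ⟨c, d⟩ | ⟨c, d⟩ <;>
        fin_cases i <;> simp [F, c, d]
  have hsum : ∑ i, wt w (univ.filter fun e => e ∈ A ∧ (F i e = 2 ∨ F i e = -2)) = wt w (A ∩ B) := by
    unfold wt
    rw [sum_comm]
    refine sum_congr rfl fun e _ => ?_
    rw [Fin.sum_univ_three]
    simp only [mem_inter, mem_filter, mem_univ, true_and]
    rcases hPv e with ⟨h1, h2, h3⟩ | ⟨h1, h2⟩
    · simp [F, h1, h2, h3]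
    · by_cases hA : e ∈ A
      · rcases h2 with ⟨c, d⟩ | ⟨c, d⟩ | ⟨c, d⟩ | ⟨c, d⟩ | ⟨c, d⟩ | ⟨c, d⟩ <;>
          simp [F, c, d, hA, h1]
      · simp [hA]
  obtain ⟨k, hk⟩ := avg (n := 3) (by norm_num)
    (fun i => wt w (univ.filter fun e => e ∈ A ∧ (F i e = 2 ∨ F i e = -2)))
  rw [hsum] at hk
  push_cast at hk
  set φ := F k with hφ
  have hφB : Bal K.t K.h φ := hF k
  obtain ⟨Q, hQ, hQ1⟩ := halve K.t K.h (fun e => α e + φ e) (hα.add hφB)
  obtain ⟨x1, hx1, hx1'⟩ := halve K.t K.h (fun e => φ e - Q e) (hφB.sub hQ)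
  obtain ⟨y1, hy1, hy1'⟩ := halve K.t K.h (fun e => - Q e)
    (by have := hQ.smul (-1); simpa using this)
  obtain ⟨x2, hx2, hx2'⟩ := halve K.t K.h (fun e => Q e - α e) (hQ.sub hα)
  obtain ⟨y2, hy2, hy2'⟩ := halve K.t K.h (fun e => Q e - α e - φ e) ((hQ.sub hα).sub hφB)
  have hav : ∀ e, α e = 0 ∨ α e = 1 ∨ α e = -1 := by
    intro e
    rcases hα' e with ⟨-, h⟩ | ⟨-, h⟩
    · exact Or.inr h
    · exact Or.inl h
  have hfv : ∀ e, φ e = 0 ∨ φ e = 1 ∨ φ e = -1 ∨ φ e = 2 ∨ φ e = -2 := by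
    intro e
    rcases hFv k e with ⟨-, h⟩ | ⟨-, h⟩
    · exact Or.inl h
    · exact Or.inr h
  have hne : ∀ e, α e ≠ 0 ∨ φ e ≠ 0 := by
    intro e
    rcases hAB e with h | h
    · left
      rcases hα' e with ⟨-, h2⟩ | ⟨h2, -⟩
      · rcases h2 with h2 | h2 <;> rw [h2] <;> norm_num
      · exact absurd h h2
    · right
      rcases hFv k e with ⟨h2, -⟩ | ⟨-, h2⟩
      · exact absurd h h2
      · rcases h2 with h2 | h2 | h2 | h2 <;> rw [← hφ] at h2 <;> rw [h2] <;> norm_num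
  have L1 := fun e => loc1 (α e) (φ e) (Q e) (x1 e) (y1 e) (hav e) (hfv e) (hne e) (hQ1 e)
    (hx1' e) (hy1' e)
  have L2 := fun e => loc2 (α e) (φ e) (Q e) (x2 e) (y2 e) (hav e) (hfv e) (hne e) (hQ1 e)
    (hx2' e) (hy2' e)
  -- the two families
  let g1 : Fin 6 → E → ℤ := fun i e => six1 (α e) (φ e) (Q e) (x1 e) (y1 e) i
  let g2 : Fin 6 → E → ℤ := fun i e => six2 (α e) (φ e) (Q e) (x2 e) (y2 e) i
  have hneg : Bal K.t K.h (fun e => - Q e) := by have := hQ.smul (-1); simpa using this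
  have hg1 : ∀ i, Bal K.t K.h (g1 i) := by
    intro i
    fin_cases i
    · exact hα
    · exact ((hQ.smul 2).sub hα).sub hφB
    · exact hx1
    · exact (hφB.sub hQ).sub hx1
    · exact hy1
    · exact hneg.sub hy1
  have hg2 : ∀ i, Bal K.t K.h (g2 i) := by
    intro i
    fin_cases i
    · exact hα
    · exact (hα.add hφB).sub (hQ.smul 2)
    · exact hx2
    · exact (hQ.sub hα).sub hx2
    · exact hy2
    · exact ((hQ.sub hα).sub hφB).sub hy2
  let m1 : E → ℕ := fun e => cnt (fun i => g1 i e) 1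
  let m2 : E → ℕ := fun e => cnt (fun i => g2 i e) 1
  have c1 : CovI K (Fin 6) m1 :=
    ⟨g1, fun i => isFlow_of (hg1 i), fun i e => (L1 e).1 i, fun e => ⟨rfl, ((L1 e).2.1).symm⟩⟩
  have c2 : CovI K (Fin 6) m2 :=
    ⟨g2, fun i => isFlow_of (hg2 i), fun i e => (L2 e).1 i, fun e => ⟨rfl, ((L2 e).2.1).symm⟩⟩
  have v1 : ∀ e, m1 e = if (α e ≠ 0 ∧ (φ e = 2 ∨ φ e = -2)) ∨ (φ e = 0 ∧ 2 * Q e - α e = α e)
      then 2 else 1 := fun e => (L1 e).2.2
  have v2 : ∀ e, m2 e = if (α e ≠ 0 ∧ (φ e = 2 ∨ φ e = -2)) ∨ (φ e = 0 ∧ 2 * Q e - α e ≠ α e)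
      then 2 else 1 := fun e => (L2 e).2.2
  have hA0 : ∀ e, α e ≠ 0 ↔ e ∈ A := by
    intro e
    rcases hα' e with ⟨h1, h2⟩ | ⟨h1, h2⟩
    · rcases h2 with h2 | h2 <;> rw [h2] <;> simp [h1]
    · simp [h1, h2]
  have hB0 : ∀ e, φ e = 0 ↔ e ∉ B := by
    intro e
    rcases hFv k e with ⟨h1, h2⟩ | ⟨h1, h2⟩
    · exact ⟨fun _ => h1, fun _ => h2⟩
    · constructor
      · intro h3
        rw [← hφ, h3] at h2
        norm_num at h2
      · intro h3
        exact absurd h1 h3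
  have key : ∑ e ∈ univ.filter (fun e => m1 e = 2), w e + ∑ e ∈ univ.filter (fun e => m2 e = 2), w e
      = 2 * wt w (univ.filter fun e => e ∈ A ∧ (φ e = 2 ∨ φ e = -2)) + wt w (A \ B) := by
    rw [sum_filter, sum_filter]
    unfold wt
    rw [← sum_add_distrib, mul_sum, ← sum_add_distrib]
    refine sum_congr rfl fun e _ => ?_
    rw [v1 e, v2 e]
    simp only [mem_filter, mem_univ, true_and, mem_sdiff, ← hA0 e, ← hB0 e]
    have h0 := hne e
    by_cases h1 : α e ≠ 0 <;> by_cases h2 : (φ e = 2 ∨ φ e = -2)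
    · have h3 : φ e ≠ 0 := by rcases h2 with h | h <;> rw [h] <;> norm_num
      simp [h1, h2, h3]
      ring
    · by_cases h3 : φ e = 0
      · by_cases h4 : 2 * Q e - α e = α e
        · simp [h1, h3, h4]
        · simp [h1, h3, h4]
      · simp [h2, h3]
    · have h3 : φ e ≠ 0 := by rcases h2 with h | h <;> rw [h] <;> norm_num
      simp [h1, h3]
    · have h3 : φ e ≠ 0 := h0.resolve_left h1
      simp [h1, h3]
  have hk' : 3 * wt w (univ.filter fun e => e ∈ A ∧ (φ e = 2 ∨ φ e = -2)) ≤ wt w (A ∩ B) := hk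
  have hpsi' : psi w A B = 3 * wt w (A \ B) + 2 * wt w (A ∩ B) := rfl
  have o1 : ∀ e, m1 e = 1 ∨ m1 e = 2 := by
    intro e
    rw [v1 e]
    split_ifs <;> simp
  have o2 : ∀ e, m2 e = 1 ∨ m2 e = 2 := by
    intro e
    rw [v2 e]
    split_ifs <;> simp
  by_cases h : 30 * ∑ e ∈ univ.filter (fun e => m1 e = 2), w e ≤ 7 * ∑ e, w e
  · exact ⟨m1, o1, c1, h⟩
  · refine ⟨m2, o2, c2, ?_⟩
    linarith

end Pool.Agent.U653.OC
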